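import Pool.Agent.H13.EL.M1T
import Pool.Agent.H13.EL.Lev4
import Pool.Agent.H13.EL.Ex
import Pool.Agent.H13.EL.DownF
import Pool.Agent.H13.EL.UpF
import Pool.Agent.H40.EL.UpF
import Pool.Agent.H40.EL.UpS

/-!
# Complete problems relative to windows, and exact collapse conditions

The computation model, total NP search problems relative to an oracle and their many-one
reductions are defined in `Pool.Agent.H88.RO.Model`; NP relative to an oracle and the histories
`Hist` of polynomial time Turing reductions in `Pool.Agent.H65.TS.Base`; the class `InPi2` in
`Pool.Agent.H65.NU.Defs`; search problems which need not be total, windows and reductions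
relative to windows in `Pool.Agent.H13.EL.Defs`.

A search problem `S` (polynomial time relation, polynomially bounded solutions, not necessarily
total) reduces to the total problem `T` relative to the windows `W`, if one polynomial time
reduction is correct at all instances `x` such that there are `S`-solutions for all instances in
the window `W x`. So the reduction may fail at `x` only if `S` has no solution at some instance near
`x`. If `W x` contains all instances, this is the usual notion for total problems `S`.

Let `F` be a growth function (monotone, `n < F n` and `F (n ^ d) ≤ F n ^ d` for `n ≥ 2` and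
`d ≥ 1`, computable in polynomial time in unary notation), for example `F n = n + 1`, `F n = c * n`,
`F n = n ^ k`. The window of `x` contains the instances `x'` such that neither of the numbers
`|x| + 2`, `|x'| + 2` reaches the value of `F` at the other one.

Theorem: the following are equivalent: every set in `Π₂` which contains only strings `1^N` with
`N = 2, F 2, F (F 2), ...` is in coNP; every search problem reduces relative to the windows of
`F` to some total problem; every search problem Turing reduces relative to these windows to
some total problem. If this is so, then there is a complete total problem, and moreover it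
serves all search problems `S`, relative to the windows of an iterate of `F` which depends on `S`
(relative to the windows of `F` itself, if `F` is slow).

For `F n = n + 1` the windows are the instances of the same length and the collapse is
`Σ₂E = NE`; for `F n = 2 * n` the windows are the instances of the same length up to a factor
and the collapse is `Σ₂EE = NEE`, with `EE = TIME(2^O(2^n))`; for `F n = n ^ 2` it says that
`Σ₂EE` and `NEE` have the same tally sets.
-/

set_option autoImplicit false

namespace Pool.Agent.Results.MP_0a7732_lc.ExactLevels

open Pool.Agent.H88.RO Pool.Agent.H65.TS Pool.Agent.H65.NU Pool.Agent.H13.EL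

/-- **Exact collapse conditions for total NP search problems relative to windows.** -/
theorem result (O : List Bool → Bool) :
    (Nice O (fun n => n + 1) ∧ (∀ c, 2 ≤ c → Nice O (fun n => c * n)) ∧
      ∀ k, 2 ≤ k → Nice O (fun n => n ^ k)) ∧
    ∀ F : ℕ → ℕ, Nice O F →
      List.TFAE [
        Collapse O F,
        ∀ S : Search O, ∃ T : TFNP O, S.Reduces T (window F),
        ∀ S : Search O, ∃ T : TFNP O, S.TuringReduces T (window F)] ∧
      (Collapse O F →
        ∃ T : TFNP O, T.IsComplete ∧ ∀ S : Search O, ∃ q, S.Reduces T (window F^[q])) ∧
      ((∃ c, ∀ i, F^[2 * i] 2 ≤ (F^[i] 2) ^ c) → Collapse O F →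
        ∃ T : TFNP O, ∀ S : Search O, S.Reduces T (window F)) := by
  refine ⟨⟨nice_succ, fun c hc => nice_mul hc, fun k hk => nice_pow hk⟩, fun F hF => ?_⟩
  refine ⟨?_, fun h => ?_, fun ⟨c, hc⟩ h => Pool.Agent.H40.EL.upFs hF c hc h⟩
  · tfae_have 1 → 2 := fun h => upF hF h
    tfae_have 2 → 3 := fun h S => by
      obtain ⟨T, hT⟩ := h S
      exact ⟨T, .of_reduces hT⟩
    tfae_have 3 → 1 := downF hF
    tfae_finish
  · obtain ⟨T, hT⟩ := Pool.Agent.H40.EL.upFu hF h
    refine ⟨T, (complete_iff_all T).mpr (fun S => ?_), hT⟩
    obtain ⟨q, hq⟩ := hT S
    exact hq.mono (fun x => Set.subset_univ _)

end Pool.Agent.Results.MP_0a7732_lc.ExactLevels
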