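import Pool.Agent.H65.TS.Neg

/-!
# Complete total NP search problems relative to tally oracles

The computation model, total NP search problems relative to an oracle, their many-one reductions
and the join of two oracles are defined in `Pool.Agent.H88.RO.Model`; tally oracles, NP relative
to an oracle and polynomial time Turing reductions between search problems are defined in
`Pool.Agent.H65.TS.Base`.

Theorem: for every oracle `B` the following are equivalent.

1. NP relative to `B` is not closed under complements.
2. For some tally set `A` no total NP search problem relative to `A` and `B` is complete.
3. The existence of a complete total NP search problem relative to `A` and `B` depends on the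
   tally set `A`: it holds for some `A`, and for some other `A` it fails in a strong way: for
   every `T` there is an `S`, whose relation depends on the instance through its length only,
   which is not even polynomial time Turing reducible to `T`.

So the known implication from the assertion of the question (no problem is complete) to
NP ≠ coNP can be reversed if one allows for a tally oracle.  (For the trivial oracle `B`: NP ≠ coNP
if and only if the assertion holds relative to some tally oracle.)

Proof.  If NP is closed under complements relative to `B`, then for every tally `A` the following
problem is total and complete: given a machine, a clock `K`, a length bound and an input `x`, find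
a solution of `x` accepted by the machine with oracle `A` and `B` and clock `K`, or a certificate
(relative to `B`) that there is none; the certificate is for the instance together with the table
of `A` up to length `K`.

A tally set `A` with a complete problem exists always: let the bit of `A` at a position `c > K`
which codes a machine, a clock `K`, a length bound and an input length `n` say whether the
machine is total on inputs of length `n` relative to `A` (which depends on `A` up to length `K`).

Let now `L` be in NP but not in coNP relative to `B`.  The tally set `A` is constructed by finite
extensions.  Its region number `n` (the positions from `n * n` to `n * n + n - 1`) may hold an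
owner `i` and a string `w`.  The problem `S i` asks, for an instance of length `n`, for a witness
of membership in `L` for the string in region `n`, if `i` owns it.  Let `T i` be the search
problem candidate number `i`.  At stage `(i, j)`, if some extension, in which the strings not
owned by `i` belong to `L` but the strings owned by `i` are arbitrary, makes `T i` not total, it
is taken.  Otherwise some string `w` in `L` can be written into a region such that the
reduction number `j` of `S i` to `T i` fails at the instance `1^n`: if it did not fail for all
long strings in `L`, then for all long `w` we would have that `w` is not in `L` if and only if
there are `T i`-solutions (relative to the oracle with `w` written into the region of `i`)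
leading the reduction to a wrong answer, as `T i` is total relative to this oracle in any case;
so the complement of `L` would be in NP relative to `B`.
-/

set_option autoImplicit false

namespace Pool.Agent.Results.MP_0a7732_lc.TallyOracles

open Pool.Agent.H88.RO Pool.Agent.H65.TS

/-- **NP ≠ coNP relative to `B` if and only if for some tally set `A` no total NP search problem
relative to `A` and `B` is complete.** -/
theorem result (B : List Bool → Bool) : List.TFAE [
    ∃ L : Set (List Bool), InNP B L ∧ ¬ InNP B Lᶜ,
    ∃ A, Tally A ∧ ¬ ∃ T : TFNP (join A B), T.IsComplete,
    (∃ A, Tally A ∧ ∃ T : TFNP (join A B), T.IsComplete) ∧
      ∃ A, Tally A ∧ ∀ T : TFNP (join A B), ∃ S : TFNP (join A B),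
        (∀ x x' y, x.length = x'.length → S.R x y = S.R x' y) ∧ ¬ TuringReduces S T] := by
  tfae_have 1 → 3 := by
    rintro ⟨L, h1, h2⟩
    refine ⟨⟨_, tally_tal _, exists_complete B⟩, ?_⟩
    obtain ⟨F, hF⟩ := exists_no_complete B h1 h2
    exact ⟨_, tally_tal F, hF⟩
  tfae_have 3 → 2 := by
    rintro ⟨_, A, hA, h⟩
    refine ⟨A, hA, ?_⟩
    rintro ⟨T, hT⟩
    obtain ⟨S, _, hS⟩ := h T
    exact hS (TuringReduces.of_reduces (hT S))
  tfae_have 2 → 1 := by
    rintro ⟨A, hA, h⟩
    by_contra hcon
    push Not at hcon
    exact h (complete_of_closed hA B hcon)
  tfae_finish

end Pool.Agent.Results.MP_0a7732_lc.TallyOracles
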